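import Pool.Agent.X197.AlmostMin

/-!
# MP_e403d1_gt, Q1: almost minimality is not inherited by closed subgroups

Let `K = (ℤ/4)^(ℕ × ℕ)` and let `t` be a transcendental number in `(0,1)`.  For an integer polynomial `f`
let `φ i f` be the sum modulo `2` of the coefficients of `f` with index `pair i j`.  `G` consists of the
pairs `(x, f(t))` in `K × ℝ` such that `x (i, j) ≡ φ i f mod 2` for all but finitely many `(i, j)`.
The elements of `G` with real part `0` form a minimal subgroup `N` (it is essential and dense in `K`), and
`G / N` is a subgroup of the reals.  The closed subgroup `H` of those elements with `x (i, j)`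
independent of `j` satisfies `x (i, j) ≡ φ i f mod 2` for all `(i, j)`; a minimal subgroup of `H` must lie in
`2 K`, and then the quotient has no neighbourhood `U` of `0` whose sets `(1/n) U` form a base.
-/

open Pool.Agent.X197.AlmostMin

namespace Pool.Agent.Results.MP_e403d1_gt.ClosedSubgroup

/-- There are an almost minimal abelian Hausdorff topological group `G` and a closed subgroup `H` of
`G` which is not almost minimal. -/
theorem result : ∃ (G : Type) (_ : AddCommGroup G) (_ : TopologicalSpace G),
    IsTopologicalAddGroup G ∧ T2Space G ∧ AlmostMinimal G ∧
      ∃ H : AddSubgroup G, IsClosed (H : Set G) ∧ ¬ AlmostMinimal H :=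
  ⟨G, inferInstance, inferInstance, inferInstance, inferInstance, almostMinimal_G, H, isClosed_H,
    not_almostMinimal_H⟩

end Pool.Agent.Results.MP_e403d1_gt.ClosedSubgroup
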